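import Pool.Agent.Helper97.TY.Cell
import Pool.Agent.Helper69.TY.V3
import Pool.Agent.Helper57.TZ.Cube

/-!
MP_8ee768_co, project TH-Y', stage 0: the constants of helper69's search function as sets of cells.
-/

set_option autoImplicit false
set_option maxRecDepth 100000

namespace Pool.Agent.Helper54.TZ

open Finset
open Pool.Agent.Helper79.CV (L length_L mem_L lt_of_mem_L nodup_L)
open Pool.Agent.Helper97.TY (gs)
open Pool.Agent.Helper69.TY.V3

/-- the cells of the points `2 ^ d` -/
abbrev PT : Finset ℕ := (L 11 1).toFinset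

/-- the cells of the pairs -/
abbrev PR : Finset ℕ := (L 11 2).toFinset

/-- the cells of the triples -/
abbrev TR : Finset ℕ := (L 11 3).toFinset

/-- the cells of the quads -/
abbrev QU : Finset ℕ := (L 11 4).toFinset

/-- the number with ones in the cells of the list `l` -/
def gsL (l : List ℕ) : ℕ :=
  List.rec (motive := fun _ => ℕ) 0 (fun e _ s => Nat.add (Nat.pow 2 (Nat.mul 4 e)) s) l

theorem gsL_eq {l : List ℕ} (h : l.Nodup) : gsL l = gs 4 l.toFinset := by
  induction l with
  | nil => rfl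
  | cons e l ih =>
    rw [List.nodup_cons] at h
    have e1 : gsL (e :: l) = 2 ^ (4 * e) + gsL l := rfl
    rw [e1, ih h.2, List.toFinset_cons]
    unfold gs
    rw [sum_insert (by rw [List.mem_toFinset]; exact h.1)]

theorem cS_eq : cS = gs 4 PT := by
  rw [← gsL_eq (nodup_L 11 1)]
  decide +kernel

theorem c2S_eq : c2S = 2 * gs 4 PT := by
  rw [← gsL_eq (nodup_L 11 1)]
  decide +kernel

theorem c3S_eq : c3S = 3 * gs 4 PT := by
  rw [← gsL_eq (nodup_L 11 1)]
  decide +kernel

theorem c8S_eq : c8S = 8 * gs 4 PT := by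
  rw [← gsL_eq (nodup_L 11 1)]
  decide +kernel

theorem c7S_eq : c7S = 7 * gs 4 PT := by
  rw [← gsL_eq (nodup_L 11 1)]
  decide +kernel

theorem c5S_eq : c5S = 5 * gs 4 PT := by
  rw [← gsL_eq (nodup_L 11 1)]
  decide +kernel

/-- bit 0 of the 1300 cells of 12 bits -/
theorem cO_eq : cO = (2 ^ (12 * 1300) - 1) / (2 ^ 12 - 1) := by decide +kernel

theorem cT_eq : cT = gs 4 TR := by
  rw [← gsL_eq (nodup_L 11 3)]
  decide +kernel

theorem c7T_eq : c7T = 7 * gs 4 TR := by
  rw [← gsL_eq (nodup_L 11 3)]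
  decide +kernel

theorem c8Q_eq : c8Q = 8 * gs 4 QU := by
  rw [← gsL_eq (nodup_L 11 4)]
  decide +kernel

theorem c7Q_eq : c7Q = 7 * gs 4 QU := by
  rw [← gsL_eq (nodup_L 11 4)]
  decide +kernel

theorem kP_eq : kP = gs 4 PR := by
  rw [← gsL_eq (nodup_L 11 2)]
  decide +kernel

theorem cB_eq : cB = 8 * 2 ^ (4 * 2048) := by decide +kernel

/-- the cells `1024 - 2 ^ v` -/
abbrev PT' : Finset ℕ := PT.image fun p => 1024 - p

/-- the cells `1536 - p` of the pairs `p` -/
abbrev PR' : Finset ℕ := PR.image fun p => 1536 - p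

theorem le_PT : ∀ p ∈ L 11 1, p ≤ 1024 := by decide +kernel

theorem le_PR : ∀ p ∈ L 11 2, p ≤ 1536 := by decide +kernel

theorem toFinset_map (l : List ℕ) (f : ℕ → ℕ) : (l.map f).toFinset = l.toFinset.image f := by
  ext x
  rw [List.mem_toFinset, List.mem_map, mem_image]
  constructor
  · rintro ⟨a, ha, h⟩
    exact ⟨a, List.mem_toFinset.2 ha, h⟩
  · rintro ⟨a, ha, h⟩
    exact ⟨a, List.mem_toFinset.1 ha, h⟩

theorem kT_eq : kT = gs 4 PT' := by
  rw [show PT' = ((L 11 1).map fun p => 1024 - p).toFinset from (toFinset_map _ _).symm, ← gsL_eq (by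
    refine (nodup_L 11 1).map_on fun a ha b hb hab => ?_
    have h1 := le_PT a ha
    have h2 := le_PT b hb
    have h3 : 1024 - a = 1024 - b := hab
    omega)]
  decide +kernel

theorem kD_eq : kD = gs 4 PR' := by
  rw [show PR' = ((L 11 2).map fun p => 1536 - p).toFinset from (toFinset_map _ _).symm, ← gsL_eq (by
    refine (nodup_L 11 2).map_on fun a ha b hb hab => ?_
    have h1 := le_PR a ha
    have h2 := le_PR b hb
    have h3 : 1536 - a = 1536 - b := hab
    omega)]
  decide +kernel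

end Pool.Agent.Helper54.TZ
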