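import Pool.Agent.Helper54.TZ.Zt

/-!
MP_8ee768_co, project TH-Y', stage 0: counting the solution flags of a stream.

`fk S k`: the number of flags (bit 13 of `S`, bit `12 i + 13`) among the first `k` symbols of `S`.
-/

set_option autoImplicit false
set_option maxRecDepth 100000

namespace Pool.Agent.Helper54.TZ

open Finset
open Pool.Agent.Helper63.SIMD
open Pool.Agent.Helper97.TY
open Pool.Agent.Helper69.TY.V3

/-- the number of flags among the first `k` symbols -/
def fk (S k : ℕ) : ℕ := ((range k).filter fun i => S.testBit (12 * i + 13) = true).card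

theorem fk_zero (S : ℕ) : fk S 0 = 0 := rfl

theorem fk_eq_sum (S k : ℕ) : fk S k = ∑ i ∈ range k, (S.testBit (12 * i + 13)).toNat := by
  unfold fk
  rw [card_filter]
  refine sum_congr rfl fun i _ => ?_
  cases S.testBit (12 * i + 13) <;> rfl

/-- **the flags of two pieces** -/
theorem fk_add (S a b : ℕ) : fk S (a + b) = fk S a + fk (Nat.shiftRight S (12 * a)) b := by
  rw [fk_eq_sum, fk_eq_sum, fk_eq_sum, sum_range_add]
  refine congrArg₂ _ rfl (sum_congr rfl fun i _ => ?_)
  have e : Nat.shiftRight S (12 * a) = S >>> (12 * a) := rfl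
  rw [e, Nat.testBit_shiftRight, show 12 * (a + i) + 13 = 12 * a + (12 * i + 13) by ring]

theorem fk_one (S : ℕ) : fk S 1 = (S.testBit 13).toNat := by
  rw [fk_eq_sum, sum_range_one]

theorem fk_mono (S : ℕ) {a b : ℕ} (h : a ≤ b) : fk S a ≤ fk S b := by
  unfold fk
  exact card_le_card (filter_subset_filter _ (range_subset_range.2 h))

theorem shift_shift (S a b : ℕ) :
    Nat.shiftRight (Nat.shiftRight S (12 * a)) (12 * b) = Nat.shiftRight S (12 * (a + b)) := by
  have e : Nat.shiftRight (Nat.shiftRight S (12 * a)) (12 * b) = S >>> (12 * a) >>> (12 * b) := rfl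
  have e2 : Nat.shiftRight S (12 * (a + b)) = S >>> (12 * (a + b)) := rfl
  rw [e, e2, ← Nat.shiftRight_add, Nat.mul_add]

theorem shift_succ (S a : ℕ) :
    Nat.shiftRight (Nat.shiftRight S 12) (12 * a) = Nat.shiftRight S (12 * (a + 1)) := by
  rw [show (12 : ℕ) = 12 * 1 from rfl, shift_shift, Nat.add_comm]

theorem land_8192_eq (S : ℕ) : Nat.beq (Nat.land S 8192) 0 = !(S.testBit 13) := by
  have e : Nat.land S 8192 = S &&& 2 ^ 13 := rfl
  rw [e]
  cases h : S.testBit 13
  · rw [Bool.not_false]
    have h1 : S &&& 2 ^ 13 = 0 := by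
      refine Nat.eq_of_testBit_eq fun i => ?_
      rw [Nat.testBit_and, Nat.testBit_two_pow, Nat.zero_testBit]
      by_cases h2 : 13 = i
      · subst h2
        rw [h, Bool.false_and]
      · rw [decide_eq_false h2, Bool.and_false]
    rw [h1]
    rfl
  · rw [Bool.not_true, ← Bool.not_eq_true]
    intro h1
    have h2 := congrArg (fun x => Nat.testBit x 13) (Nat.eq_of_beq_eq_true h1)
    simp only [Nat.testBit_and, Nat.testBit_two_pow_self, Bool.and_true, Nat.zero_testBit, h] at h2
    exact Bool.noConfusion h2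

/-! ## the count of a stream -/

theorem cO_ones : cO = gs 12 (range 1300) := by
  have h : ∀ n, gs 12 (range n) * (2 ^ 12 - 1) = 2 ^ (12 * n) - 1 := by
    intro n
    induction n with
    | zero => rfl
    | succ n ih =>
      unfold gs at ih ⊢
      rw [sum_range_succ, add_mul, ih]
      have h1 : 1 ≤ 2 ^ (12 * n) := Nat.one_le_two_pow
      have h2 : 2 ^ (12 * (n + 1)) = 2 ^ (12 * n) * 4096 := by
        rw [Nat.mul_add, pow_add]
        rfl
      rw [h2, show (2 : ℕ) ^ 12 - 1 = 4095 from rfl]
      omega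
  rw [cO_eq, ← h 1300, Nat.mul_div_cancel _ (by norm_num)]

/-- a set of cells of 12 bits modulo 4095 -/
theorem gs_mod (S : Finset ℕ) : gs 12 S % 4095 = S.card % 4095 := by
  induction S using Finset.induction_on with
  | empty => rfl
  | insert a S ha ih =>
    have e : gs 12 (insert a S) = 2 ^ (12 * a) + gs 12 S := by
      unfold gs
      rw [sum_insert ha]
    have h1 : 2 ^ (12 * a) % 4095 = 1 := by
      rw [pow_mul, Nat.pow_mod]
      norm_num
    rw [e, card_insert_of_notMem ha]
    omega

/-- **the count is the number of flags** of the 1300 symbols -/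
theorem cnt_eq (S : ℕ) : cnt S = fk S 1300 := by
  have e0 : cnt S = (S >>> 13 &&& cO) % 4095 := rfl
  have e1 : S >>> 13 &&& cO =
      gs 12 ((range 1300).filter fun i => S.testBit (12 * i + 13) = true) := by
    rw [cO_ones]
    refine eq_of_bits (W := 12) (by norm_num) fun m j hj => ?_
    rw [Nat.testBit_and, Nat.testBit_shiftRight, testBit_gs (by norm_num) _ m hj,
      testBit_gs (by norm_num) _ m hj, Bool.eq_iff_iff]
    by_cases h0 : j = 0
    · subst h0
      rw [Nat.add_zero, Nat.add_comm 13]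
      simp only [Bool.and_eq_true, decide_eq_true_eq, mem_filter]
      tauto
    · rw [decide_eq_false h0, Bool.and_false, Bool.and_false, Bool.and_false]
  rw [e0, e1, gs_mod]
  refine Nat.mod_eq_of_lt (lt_of_le_of_lt (card_filter_le _ _) ?_)
  rw [card_range]
  norm_num

/-- **the end of a part**: all flags are among the consumed symbols -/
theorem fk_eq_cnt {S k : ℕ} (hS : S ≤ 2 ^ 15600)
    (h : Nat.shiftRight (Nat.shiftRight S (12 * k)) 2 = 1) : fk S k = cnt S := by
  have e : Nat.shiftRight (Nat.shiftRight S (12 * k)) 2 = S >>> (12 * k) >>> 2 := rfl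
  rw [e, ← Nat.shiftRight_add, Nat.shiftRight_eq_div_pow] at h
  have h1 : S < 2 * 2 ^ (12 * k + 2) := by
    have h2 := Nat.lt_mul_div_succ S (Nat.two_pow_pos (12 * k + 2))
    rw [h] at h2
    omega
  have h3 : 2 ^ (12 * k + 2) ≤ S := by
    by_contra h4
    rw [Nat.div_eq_of_lt (by omega)] at h
    omega
  have h5 : k < 1300 := by
    have h6 : 2 ^ (12 * k + 2) ≤ 2 ^ 15600 := h3.trans hS
    have h7 := (Nat.pow_le_pow_iff_right (by norm_num : 1 < 2)).1 h6
    omega
  rw [cnt_eq]
  have h8 := fk_add S k (1300 - k)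
  rw [show k + (1300 - k) = 1300 by omega] at h8
  rw [h8]
  have h9 : fk (Nat.shiftRight S (12 * k)) (1300 - k) = 0 := by
    rw [fk_eq_sum]
    refine sum_eq_zero fun i _ => ?_
    have e2 : Nat.shiftRight S (12 * k) = S >>> (12 * k) := rfl
    rw [e2, Nat.testBit_shiftRight, Nat.testBit_lt_two_pow]
    · rfl
    · refine lt_of_lt_of_le h1 ?_
      rw [← pow_succ']
      exact Nat.pow_le_pow_right (by norm_num) (by omega)
  omega

/-- the tests at the end of a part -/
theorem le_of_shiftLeft {S : ℕ} (h : Nat.ble S (Nat.shiftLeft 1 15600) = true) : S ≤ 2 ^ 15600 := by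
  have h1 := Nat.le_of_ble_eq_true h
  have e : Nat.shiftLeft 1 15600 = 1 <<< 15600 := rfl
  rw [e, Nat.one_shiftLeft] at h1
  exact h1

/-! ## the leaf tests on cells -/

section

variable {w : ℕ → ℕ}

/-- all triples are odd -/
theorem land_cT (hw : ∀ m < 2049, w m < 16) :
    Nat.land (pk 4 2049 w) cT = cT ↔ ∀ m ∈ TR, w m % 2 = 1 := by
  have e0 : Nat.land (pk 4 2049 w) cT = gs 4 (TR.filter fun m => m < 2049 ∧ (w m).testBit 0 = true) := by
    rw [cT_eq]
    exact plane (W := 4) (n := 2049) (j := 0) (f := w) hw (by norm_num) TR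
  rw [e0, cT_eq]
  constructor
  · intro h m hm
    have h1 := congrArg (fun x => Nat.testBit x (4 * m + 0)) h
    simp only [testBit_gs (by norm_num : 0 < 4) _ m (by norm_num : 0 < 4)] at h1
    rw [decide_eq_true hm, decide_true, Bool.and_true, Bool.and_true, decide_eq_true_eq,
      mem_filter] at h1
    have h2 := h1.2.2
    rw [Nat.testBit_zero, decide_eq_true_eq] at h2
    exact h2
  · intro h
    refine congrArg (gs 4) (filter_true_of_mem fun m hm => ?_)
    have h1 := lt_TR hm
    refine ⟨by omega, ?_⟩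
    rw [Nat.testBit_zero, decide_eq_true_eq]
    exact h m hm

/-- all digits are 5 -/
theorem land_c7S (hw : ∀ m < 2049, w m < 16) :
    Nat.land (pk 4 2049 w) c7S = c5S ↔ ∀ v < 11, w (2 ^ v) % 8 = 5 := by
  have e0 : Nat.land (pk 4 2049 w) c7S = pk 4 2049 (fun m => if m ∈ PT then w m &&& 7 else 0) := by
    rw [c7S_eq]
    exact pk_land_gs (W := 4) (k := 7) (fun a ha => lt_PT ha) hw (by norm_num)
  have e1 : c5S = pk 4 2049 (fun m => if m ∈ PT then 5 else 0) := by
    rw [c5S_eq]
    exact mul_gs_eq_pk fun a ha => lt_PT ha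
  have h7 : ∀ x : ℕ, x &&& 7 = x % 8 := fun x => Nat.and_two_pow_sub_one_eq_mod x 3
  rw [e0, e1, pk_inj (W := 4)]
  · constructor
    · intro h v hv
      have hm : 2 ^ v ∈ PT := by
        rw [PT_eq, mem_image]
        exact ⟨v, mem_range.2 hv, rfl⟩
      have h1 := h (2 ^ v) (lt_PT hm)
      rw [if_pos hm, if_pos hm, h7] at h1
      exact h1
    · intro h m _
      by_cases hm : m ∈ PT
      · rw [if_pos hm, if_pos hm, h7]
        rw [PT_eq, mem_image] at hm
        obtain ⟨v, hv, rfl⟩ := hm
        exact h v (mem_range.1 hv)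
      · rw [if_neg hm, if_neg hm]
  · intro i _
    by_cases hm : i ∈ PT
    · rw [if_pos hm, h7]
      omega
    · rw [if_neg hm]
      norm_num
  · intro i _
    by_cases hm : i ∈ PT
    · rw [if_pos hm]
      norm_num
    · rw [if_neg hm]
      norm_num

end

end Pool.Agent.Helper54.TZ
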