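import Pool.Agent.Helper54.TZ.Str

/-!
MP_8ee768_co, project TH-Y', stage 0: leaf symbols and placed calls of helper69's search function.

`T` is the stream of a part; after `a` symbols the stream is `T >>> (12 a)`. `WJ T J a` is the weight of
the symbol `a`: its flag and the counts of the calls which are placed there.
-/

set_option autoImplicit false
set_option maxRecDepth 100000

namespace Pool.Agent.Helper54.TZ

open Finset
open Pool.Agent.Helper63.SIMD
open Pool.Agent.Helper97.TY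
open Pool.Agent.Helper69.TY.V3

/-- the counts of the calls which are placed at the symbol `a` -/
def plc (J : List ((ℕ × ℕ) × ℕ)) (a : ℕ) : ℕ :=
  (J.map fun j => if j.2 = 12 * (a + 1) then j.1.2 else 0).sum

/-- the weight of the symbol `a` -/
def WJ (T : ℕ) (J : List ((ℕ × ℕ) × ℕ)) (a : ℕ) : ℕ := (T.testBit (12 * a + 13)).toNat + plc J a

theorem tot_nil : tot [] = 0 := rfl

theorem tot_cons (j : (ℕ × ℕ) × ℕ) (J : List ((ℕ × ℕ) × ℕ)) : tot (j :: J) = j.1.2 + tot J := rfl

theorem plc_cons (j : (ℕ × ℕ) × ℕ) (J : List ((ℕ × ℕ) × ℕ)) (a : ℕ) :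
    plc (j :: J) a = (if j.2 = 12 * (a + 1) then j.1.2 else 0) + plc J a := by
  unfold plc
  rw [List.map_cons, List.sum_cons]

/-- every call is placed at most once -/
theorem sum_plc_le (J : List ((ℕ × ℕ) × ℕ)) (n : ℕ) : ∑ a ∈ range n, plc J a ≤ tot J := by
  induction J with
  | nil =>
    rw [tot_nil]
    exact (sum_eq_zero fun a _ => rfl).le
  | cons j J ih =>
    rw [tot_cons]
    have e : ∑ a ∈ range n, plc (j :: J) a =
        (∑ a ∈ range n, if j.2 = 12 * (a + 1) then j.1.2 else 0) + ∑ a ∈ range n, plc J a := by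
      rw [← sum_add_distrib]
      exact sum_congr rfl fun a _ => plc_cons j J a
    have h1 : (∑ a ∈ range n, if j.2 = 12 * (a + 1) then j.1.2 else 0) ≤ j.1.2 := by
      rw [← sum_filter, sum_const, smul_eq_mul]
      have h2 : ((range n).filter fun a => j.2 = 12 * (a + 1)).card ≤ 1 := by
        rw [card_le_one]
        intro a ha b hb
        rw [mem_filter] at ha hb
        omega
      calc _ ≤ 1 * j.1.2 := Nat.mul_le_mul_right _ h2
        _ = j.1.2 := Nat.one_mul _
    omega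

theorem le_plc {J : List ((ℕ × ℕ) × ℕ)} {j : (ℕ × ℕ) × ℕ} (hj : j ∈ J) {a : ℕ}
    (h : j.2 = 12 * (a + 1)) : j.1.2 ≤ plc J a := by
  induction J with
  | nil => exact absurd hj List.not_mem_nil
  | cons i J ih =>
    rw [plc_cons]
    rcases List.mem_cons.1 hj with rfl | h1
    · rw [if_pos h]
      exact Nat.le_add_right _ _
    · exact (ih h1).trans (Nat.le_add_left _ _)

/-- **the weight of a whole part** -/
theorem sum_WJ_le {T n : ℕ} (J : List ((ℕ × ℕ) × ℕ)) (hT : T ≤ 2 ^ 15600)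
    (h : Nat.shiftRight (Nat.shiftRight T (12 * n)) 2 = 1) :
    ∑ a ∈ range n, WJ T J a ≤ cnt T + tot J := by
  unfold WJ
  rw [sum_add_distrib, ← fk_eq_sum, fk_eq_cnt hT h]
  exact Nat.add_le_add_left (sum_plc_le J n) _

/-! ## positions of the stream -/

theorem shift_lt {T x y : ℕ} (hxy : x < y) (h : T >>> x = T >>> y) : T >>> x = 0 := by
  have h1 : T >>> y = T >>> x >>> (y - x) := by
    rw [← Nat.shiftRight_add]
    congr 1
    omega
  rw [h1, Nat.shiftRight_eq_div_pow (T >>> x)] at h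
  by_contra h2
  have h3 : 1 < 2 ^ (y - x) := Nat.one_lt_two_pow (by omega)
  have h4 := Nat.div_lt_self (Nat.pos_of_ne_zero h2) h3
  omega

/-- a nonzero rest of the stream determines the position -/
theorem shift_inj {T x y : ℕ} (h : Nat.shiftRight T x = Nat.shiftRight T y)
    (h0 : Nat.shiftRight T x ≠ 0) : x = y := by
  have e1 : ∀ z, Nat.shiftRight T z = T >>> z := fun _ => rfl
  rw [e1, e1] at h
  rw [e1] at h0
  rcases lt_trichotomy x y with h1 | h1 | h1
  · exact absurd (shift_lt h1 h) h0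
  · exact h1
  · rw [h] at h0
    exact absurd (shift_lt h1 h.symm) h0

theorem shift_zero_of_le {T x y : ℕ} (hxy : x ≤ y) (h : Nat.shiftRight T x = 0) :
    Nat.shiftRight T y = 0 := by
  have e1 : ∀ z, Nat.shiftRight T z = T >>> z := fun _ => rfl
  rw [e1] at h ⊢
  have h1 : T >>> y = T >>> x >>> (y - x) := by
    rw [← Nat.shiftRight_add]
    congr 1
    omega
  rw [h1, h, Nat.zero_shiftRight]

/-- the flag of the symbol `a` -/
theorem flag_of_land {T a : ℕ} (h : Nat.land (Nat.shiftRight T (12 * a)) 16380 = 8192) :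
    T.testBit (12 * a + 13) = true := by
  have e : Nat.land (Nat.shiftRight T (12 * a)) 16380 = (T >>> (12 * a)) &&& 16380 := rfl
  rw [e] at h
  have h1 := congrArg (fun x => Nat.testBit x 13) h
  simp only [Nat.testBit_and, Nat.testBit_shiftRight] at h1
  have h2 : (16380 : ℕ).testBit 13 = true := by decide
  have h3 : (8192 : ℕ).testBit 13 = true := by decide
  rw [h2, h3, Bool.and_true] at h1
  exact h1

/-! ## calls and leaves -/

/-- **a call**: the state is in the list, at this place -/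
theorem call_spec {T N S : ℕ} {J : List ((ℕ × ℕ) × ℕ)} (h : call T N S J ≠ 0) :
    call T N S J = S ∧ ∃ j ∈ J, N = j.1.1 ∧ S = Nat.shiftRight T j.2 := by
  induction J with
  | nil => exact absurd rfl h
  | cons j J ih =>
    have e : call T N S (j :: J) = @Bool.rec (fun _ => ℕ) (call T N S J)
      (@Bool.rec (fun _ => ℕ) (call T N S J) S (Nat.beq S (Nat.shiftRight T j.2)))
      (Nat.beq N j.1.1) := rfl
    rw [e] at h ⊢
    cases h1 : Nat.beq N j.1.1
    · rw [h1] at h
      obtain ⟨h2, i, hi, h3⟩ := ih h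
      exact ⟨h2, i, List.mem_cons_of_mem _ hi, h3⟩
    · rw [h1] at h
      cases h4 : Nat.beq S (Nat.shiftRight T j.2)
      · rw [h4] at h
        obtain ⟨h2, i, hi, h3⟩ := ih h
        exact ⟨h2, i, List.mem_cons_of_mem _ hi, h3⟩
      · exact ⟨rfl, j, List.mem_cons_self, Nat.eq_of_beq_eq_true h1, Nat.eq_of_beq_eq_true h4⟩

theorem beq_false_ne {a b : ℕ} (h : Nat.beq a b = false) : a ≠ b := by
  rintro rfl
  rw [Nat.beq_refl] at h
  exact Bool.noConfusion h

/-- **the other symbols**: a good leaf, a bad leaf, or a call -/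
theorem oth_spec {T N S t : ℕ} {J : List ((ℕ × ℕ) × ℕ)} (h : oth T J N S t ≠ 0) :
    oth T J N S t = S ∧
      ((t = 8192 ∧ Nat.land N cT = cT) ∨
        (t = 0 ∧ Nat.land N cT = cT ∧ Nat.land N c7S ≠ c5S) ∨
        ∃ j ∈ J, N = j.1.1 ∧ S = Nat.shiftRight T j.2) := by
  unfold oth at h ⊢
  cases h1 : Nat.beq t (nat_lit 8192)
  · rw [h1] at h
    cases h2 : Nat.beq t (nat_lit 0)
    · rw [h2] at h
      obtain ⟨h3, h4⟩ := call_spec h
      exact ⟨h3, Or.inr (Or.inr h4)⟩
    · rw [h2] at h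
      have h3 : wr N S ≠ 0 := h
      show wr N S = S ∧ _
      unfold wr at h3 ⊢
      cases h4 : Nat.beq (Nat.land N cT) cT
      · rw [h4] at h3
        exact absurd rfl h3
      · rw [h4] at h3
        cases h5 : Nat.beq (Nat.land N c7S) c5S
        · exact ⟨rfl, Or.inr (Or.inl ⟨Nat.eq_of_beq_eq_true h2, Nat.eq_of_beq_eq_true h4,
            beq_false_ne h5⟩)⟩
        · rw [h5] at h3
          exact absurd rfl h3
  · rw [h1] at h
    have h3 : lf N S ≠ 0 := h
    show lf N S = S ∧ _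
    unfold lf at h3 ⊢
    cases h4 : Nat.beq (Nat.land N cT) cT
    · rw [h4] at h3
      exact absurd rfl h3
    · exact ⟨rfl, Or.inl ⟨Nat.eq_of_beq_eq_true h1, Nat.eq_of_beq_eq_true h4⟩⟩

/-- **the other symbols, with the weights**: `S = T >>> (12 (a + 1))` and `t` the symbol `a` -/
theorem oth_weight {T N a : ℕ} {J : List ((ℕ × ℕ) × ℕ)}
    (h : oth T J N (Nat.shiftRight T (12 * (a + 1)))
      (Nat.land (Nat.shiftRight T (12 * a)) 16380) ≠ 0) :
    oth T J N (Nat.shiftRight T (12 * (a + 1))) (Nat.land (Nat.shiftRight T (12 * a)) 16380) =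
        Nat.shiftRight T (12 * (a + 1)) ∧
      ((Nat.land N cT = cT ∧ 1 ≤ WJ T J a) ∨
        (Nat.land N cT = cT ∧ Nat.land N c7S ≠ c5S) ∨
        ∃ j ∈ J, N = j.1.1 ∧ j.1.2 ≤ WJ T J a) := by
  obtain ⟨h1, h2⟩ := oth_spec h
  refine ⟨h1, ?_⟩
  rcases h2 with ⟨h3, h4⟩ | ⟨-, h4, h5⟩ | ⟨j, hj, h3, h4⟩
  · refine Or.inl ⟨h4, ?_⟩
    unfold WJ
    rw [flag_of_land h3]
    exact Nat.le_add_right _ _
  · exact Or.inr (Or.inl ⟨h4, h5⟩)
  · refine Or.inr (Or.inr ⟨j, hj, h3, ?_⟩)
    have h0 : Nat.shiftRight T (12 * (a + 1)) ≠ 0 := by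
      rw [h1] at h
      exact h
    have h5 := shift_inj h4 h0
    exact (le_plc hj h5.symm).trans (Nat.le_add_left _ _)

/-! ## the tests of a part -/

/-- **the tests of a part** -/
theorem part_spec {zm T : ℕ} {J : List ((ℕ × ℕ) × ℕ)} {j : ℕ × ℕ} (h : part zm J j T = true) :
    Nat.shiftRight (dfs zm (oth T J) (nat_lit 60) j.1 (zt zm j.1) T) 2 = 1 ∧
      T ≤ 2 ^ 15600 ∧ cnt T + tot J ≤ j.2 := by
  unfold part at h
  cases h1 : Nat.beq (Nat.shiftRight (dfs zm (oth T J) (nat_lit 60) j.1 (zt zm j.1) T) (nat_lit 2))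
      (nat_lit 1)
  · rw [h1] at h
    exact Bool.noConfusion h
  · rw [h1] at h
    cases h2 : Nat.ble T (Nat.shiftLeft (nat_lit 1) (nat_lit 15600))
    · rw [h2] at h
      exact Bool.noConfusion h
    · rw [h2] at h
      exact ⟨Nat.eq_of_beq_eq_true h1, le_of_shiftLeft h2, Nat.le_of_ble_eq_true h⟩

end Pool.Agent.Helper54.TZ
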