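import Pool.Agent.Helper54.TZ.Cons
import Pool.Agent.Helper57.TZ.Core

/-!
MP_8ee768_co, project TH-Y', stage 0: the bad triples of helper69's search function.
-/

set_option autoImplicit false
set_option maxRecDepth 100000

namespace Pool.Agent.Helper54.TZ

open Finset
open Pool.Agent.Helper63.SIMD
open Pool.Agent.Helper79.CV (L length_L mem_L lt_of_mem_L nodup_L)
open Pool.Agent.Helper97.TY
open Pool.Agent.Helper69.TY.V3

/-! ## bits of packed numbers -/

/-- the bits of a packed number -/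
theorem testBit_pkW {W n : ℕ} {f : ℕ → ℕ} (hf : ∀ i < n, f i < 2 ^ W) (m : ℕ) {j : ℕ} (hj : j < W) :
    (pk W n f).testBit (W * m + j) = (decide (m < n) && (f m).testBit j) := by
  induction n generalizing f m with
  | zero =>
    rw [pk_zero, Nat.zero_testBit, decide_eq_false (Nat.not_lt_zero m), Bool.false_and]
  | succ n ih =>
    rw [pk_cons, Nat.testBit_two_pow_mul_add _ (hf 0 (Nat.succ_pos n))]
    rcases m with _ | m
    · rw [Nat.mul_zero, Nat.zero_add, if_pos hj, decide_eq_true (Nat.succ_pos n), Bool.true_and]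
    · have e : W * (m + 1) + j - W = W * m + j := by
        rw [Nat.mul_succ]
        omega
      rw [if_neg (by rw [Nat.mul_succ]; omega), e,
        ih (f := fun i => f (i + 1)) (fun i hi => hf (i + 1) (by omega)) m]
      have e2 : decide (m + 1 < n + 1) = decide (m < n) := by
        rw [decide_eq_decide]
        omega
      rw [e2]

/-- numbers with the same bits in all cells are equal -/
theorem eq_of_bits {W : ℕ} (hW : 0 < W) {X Y : ℕ}
    (h : ∀ m j, j < W → X.testBit (W * m + j) = Y.testBit (W * m + j)) : X = Y := by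
  refine Nat.eq_of_testBit_eq fun i => ?_
  have h1 := h (i / W) (i % W) (Nat.mod_lt _ hW)
  rw [Nat.div_add_mod] at h1
  exact h1

theorem testBit_gs {W : ℕ} (hW : 0 < W) (S : Finset ℕ) (m : ℕ) {j : ℕ} (hj : j < W) :
    (gs W S).testBit (W * m + j) = (decide (m ∈ S) && decide (j = 0)) := by
  have h2 : ∀ i ∈ S, i < max (m + 1) (S.sup id + 1) := fun i hi => by
    have h3 : i ≤ S.sup id := le_sup (f := id) hi
    omega
  have h1 : ∀ i < max (m + 1) (S.sup id + 1), (if i ∈ S then 1 else 0) < 2 ^ W := fun i _ => by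
    by_cases h : i ∈ S
    · rw [if_pos h]
      exact Nat.one_lt_two_pow (by omega)
    · rw [if_neg h]
      exact Nat.two_pow_pos W
  rw [gs_eq_pk h2, testBit_pkW h1 m hj, decide_eq_true (by omega : m < _), Bool.true_and]
  by_cases h : m ∈ S
  · rw [if_pos h, decide_eq_true h, Bool.true_and]
    have e : (1 : ℕ) = 2 ^ 0 := rfl
    rw [e, Nat.testBit_two_pow, decide_eq_decide]
    exact eq_comm
  · rw [if_neg h, decide_eq_false h, Bool.false_and, Nat.zero_testBit]

/-- **the plane `j` of a packed number, masked** -/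
theorem plane {W n j : ℕ} {f : ℕ → ℕ} (hf : ∀ i < n, f i < 2 ^ W) (hj : j < W) (S : Finset ℕ) :
    Nat.land (Nat.shiftRight (pk W n f) j) (gs W S) =
      gs W (S.filter fun m => m < n ∧ (f m).testBit j = true) := by
  have hW : 0 < W := by omega
  have e0 : Nat.land (Nat.shiftRight (pk W n f) j) (gs W S) = (pk W n f) >>> j &&& gs W S := rfl
  rw [e0]
  refine eq_of_bits hW fun m i hi => ?_
  rw [Nat.testBit_and, Nat.testBit_shiftRight, testBit_gs hW S m hi, testBit_gs hW _ m hi]
  by_cases h0 : i = 0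
  · subst h0
    rw [Nat.add_zero, Nat.add_comm j, testBit_pkW hf m hj, decide_eq_true rfl, Bool.and_true,
      Bool.and_true, Bool.eq_iff_iff]
    simp only [Bool.and_eq_true, decide_eq_true_eq, mem_filter]
    tauto
  · rw [decide_eq_false h0, Bool.and_false, Bool.and_false, Bool.and_false]

/-- the cells with at least 8 -/
theorem plane3 {n : ℕ} {f : ℕ → ℕ} (hf : ∀ i < n, f i < 16) (S : Finset ℕ) :
    Nat.land (Nat.shiftRight (pk 4 n f) 3) (gs 4 S) = gs 4 (S.filter fun m => m < n ∧ 8 ≤ f m) := by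
  rw [plane (W := 4) hf (by norm_num) S]
  congr 1
  refine filter_congr fun m _ => and_congr_right fun h => ?_
  have h1 := hf m h
  have h2 : ∀ x < 16, x.testBit 3 = true ↔ 8 ≤ x := by decide
  exact h2 _ h1

theorem gs_land {W : ℕ} (hW : 0 < W) (S T : Finset ℕ) :
    Nat.land (gs W S) (gs W T) = gs W (S ∩ T) := by
  have e0 : Nat.land (gs W S) (gs W T) = gs W S &&& gs W T := rfl
  rw [e0]
  refine eq_of_bits hW fun m i hi => ?_
  rw [Nat.testBit_and, testBit_gs hW _ m hi, testBit_gs hW _ m hi, testBit_gs hW _ m hi,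
    Bool.eq_iff_iff]
  simp only [Bool.and_eq_true, decide_eq_true_eq, mem_inter]
  tauto

/-! ## points of triples -/

theorem PT_eq : PT = (range 11).image fun v => 2 ^ v := by decide +kernel

/-- the pairs below the triples -/
def tpOK : Bool := (L 11 3).all fun m => (List.range 11).all fun v =>
  (Nat.ble (2 ^ v) m && (L 11 2).elem (m - 2 ^ v)) == m.testBit v

theorem tpOK_ok : tpOK = true := by decide +kernel

theorem tp_spec {m v : ℕ} (hm : m ∈ L 11 3) (hv : v < 11) :
    (2 ^ v ≤ m ∧ m - 2 ^ v ∈ L 11 2) ↔ m.testBit v = true := by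
  have h := tpOK_ok
  unfold tpOK at h
  rw [List.all_eq_true] at h
  have h1 := h m hm
  rw [List.all_eq_true] at h1
  have h2 := h1 v (List.mem_range.2 hv)
  rw [beq_iff_eq] at h2
  rw [← h2, Bool.and_eq_true, Nat.ble_eq, List.elem_iff]

/-- **products of a set of points and all pairs, at the triples** -/
theorem cp_points {S : Finset ℕ} (hS : S ⊆ PT) {m : ℕ} (hm : m ∈ TR) :
    cp S PR m = ((range 11).filter fun v => m.testBit v = true ∧ 2 ^ v ∈ S).card := by
  have hm' : m ∈ L 11 3 := List.mem_toFinset.1 hm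
  unfold cp
  refine (card_bij (fun v _ => 2 ^ v) ?_ ?_ ?_).symm
  · intro v hv
    rw [mem_filter, mem_range] at hv
    rw [mem_filter]
    obtain ⟨h1, h2, h3⟩ := hv
    have h4 := (tp_spec hm' h1).2 h2
    exact ⟨h3, h4.1, List.mem_toFinset.2 h4.2⟩
  · intro a _ b _ hab
    exact Nat.pow_right_injective (le_refl 2) hab
  · intro a ha
    rw [mem_filter] at ha
    obtain ⟨h1, h2, h3⟩ := ha
    have h4 := hS h1
    rw [PT_eq, mem_image] at h4
    obtain ⟨v, hv, rfl⟩ := h4
    rw [mem_range] at hv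
    refine ⟨v, ?_, rfl⟩
    rw [mem_filter, mem_range]
    exact ⟨hv, (tp_spec hm' hv).1 ⟨h2, List.mem_toFinset.1 h3⟩, h1⟩

theorem card_PT : PT.card = 11 := by decide +kernel

/-- a triple has three points -/
def t3OK : Bool := (L 11 3).all fun m =>
  Nat.beq ((List.range 11).filter fun v => m.testBit v).length 3

theorem t3OK_ok : t3OK = true := by decide +kernel

theorem card_points_le {m : ℕ} (hm : m ∈ L 11 3) (p : ℕ → Prop) [DecidablePred p] :
    ((range 11).filter fun v => m.testBit v = true ∧ p v).card ≤ 3 := by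
  have h := t3OK_ok
  unfold t3OK at h
  rw [List.all_eq_true] at h
  have h1 := Nat.eq_of_beq_eq_true (h m hm)
  have h2 : ((range 11).filter fun v => m.testBit v = true ∧ p v) ⊆
      ((List.range 11).filter fun v => m.testBit v).toFinset := by
    intro v hv
    rw [mem_filter, mem_range] at hv
    rw [List.mem_toFinset, List.mem_filter, List.mem_range]
    exact ⟨hv.1, hv.2.1⟩
  exact ((card_le_card h2).trans (List.toFinset_card_le _)).trans h1.le

/-! ## the bad triples -/

/-- the points of the triple `m` with digit at least 5 -/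
def five (w : ℕ → ℕ) (m : ℕ) : Finset ℕ :=
  (range 11).filter fun v => m.testBit v = true ∧ 5 ≤ w (2 ^ v)

/-- a triple is bad: a zero point with digit 5, or too large budget -/
def BadN (w : ℕ → ℕ) (Z : Finset ℕ) (m : ℕ) : Prop :=
  (∃ v ∈ five w m, 2 ^ v ∈ Z) ∨ 8 ≤ w 2048 + (five w m).card

instance (w : ℕ → ℕ) (Z : Finset ℕ) : DecidablePred (BadN w Z) := fun m => by
  unfold BadN
  infer_instance

section

variable {w : ℕ → ℕ} {Z : Finset ℕ}

theorem lt_PT {m : ℕ} (h : m ∈ PT) : m < 2049 := by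
  have := le_PT m (List.mem_toFinset.1 h)
  omega

theorem lt_TR {m : ℕ} (h : m ∈ TR) : m < 2048 := by
  have := lt_of_mem_L (List.mem_toFinset.1 h)
  norm_num at this
  exact this

/-- the points with digit at least 5 -/
theorem s_eq (hw : ∀ m < 2049, w m < 16) (hp : ∀ m ∈ PT, w m ≤ 12) :
    Nat.land (Nat.shiftRight (Nat.add (pk 4 2049 w) c3S) 3) cS =
      gs 4 (PT.filter fun m => 5 ≤ w m) := by
  have e0 : Nat.add (pk 4 2049 w) c3S = pk 4 2049 (fun m => w m + if m ∈ PT then 3 else 0) := by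
    rw [c3S_eq, mul_gs_eq_pk (n := 2049) fun a ha => lt_PT ha]
    exact pk_add
  rw [e0, cS_eq, plane3]
  · congr 1
    refine filter_congr fun m hm => ?_
    rw [if_pos hm]
    have := lt_PT hm
    constructor
    · rintro ⟨-, h⟩
      omega
    · intro h
      exact ⟨this, by omega⟩
  · intro i hi
    by_cases h : i ∈ PT
    · rw [if_pos h]
      have := hp i h
      omega
    · rw [if_neg h]
      exact hw i hi

/-- the budget cell -/
theorem shift_budget (hw : ∀ m < 2049, w m < 16) : Nat.shiftRight (pk 4 2049 w) 8192 = w 2048 := by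
  have e0 : Nat.shiftRight (pk 4 2049 w) 8192 = pk 4 2049 w >>> (4 * 2048) := rfl
  have h1 : pk 4 2048 w < 2 ^ (4 * 2048) := pk_lt (W := 4) fun i hi => hw i (by omega)
  rw [e0, pk_succ, Nat.shiftRight_eq_div_pow, Nat.add_mul_div_right _ _ (Nat.two_pow_pos _),
    Nat.div_eq_of_lt h1, Nat.zero_add]

theorem le_of_cp {S : Finset ℕ} (hS : S ⊆ PT) (m : ℕ) : cp S PR m ≤ 11 := by
  refine (cp_le_left S PR m).trans ((card_le_card hS).trans ?_)
  rw [card_PT]

theorem prod_eq {S : Finset ℕ} (hS : S ⊆ PT) : gs 4 S * kP = pk 4 3072 (cp S PR) := by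
  rw [kP_eq]
  refine gs_mul fun a ha p hp => ?_
  have h1 := le_PT a (List.mem_toFinset.1 (hS ha))
  have h2 := le_PR p (List.mem_toFinset.1 hp)
  omega

theorem lor8 : ∀ x < 16, ∀ y < 16, (8 ≤ x ||| y) ↔ (8 ≤ y ∨ 8 ≤ x) := by decide

/-- **the function for the bad triples** -/
theorem zt_eq (hw : ∀ m < 2049, w m < 16) (hp : ∀ m ∈ PT, w m ≤ 12)
    (hb : w 2048 ≤ 12) : zt (gs 4 Z) (pk 4 2049 w) = gs 4 (TR.filter (BadN w Z)) := by
  unfold zt
  have e0 : Nat.land (Nat.shiftRight (Nat.add (pk 4 2049 w) c3S) (nat_lit 3)) cS =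
    gs 4 (PT.filter fun m => 5 ≤ w m) := s_eq hw hp
  rw [e0]
  obtain ⟨S, hS⟩ : ∃ S, S = PT.filter fun m => 5 ≤ w m := ⟨_, rfl⟩
  rw [← hS]
  have hS1 : S ⊆ PT := by
    rw [hS]
    exact filter_subset _ _
  have hS2 : S ∩ Z ⊆ PT := inter_subset_left.trans hS1
  have hS3 : ∀ v < 11, (2 ^ v ∈ S ↔ 5 ≤ w (2 ^ v)) := by
    intro v hv
    rw [hS, mem_filter, PT_eq, mem_image]
    exact ⟨fun h => h.2, fun h => ⟨⟨v, mem_range.2 hv, rfl⟩, h⟩⟩
  unfold zt1
  have e1 : Nat.shiftRight (pk 4 2049 w) (nat_lit 8192) = w 2048 := shift_budget hw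
  have e2 : Nat.mul (w 2048) cT = pk 4 3072 (fun m => if m ∈ TR then w 2048 else 0) := by
    rw [cT_eq]
    exact mul_gs_eq_pk fun a ha => by
      have := lt_TR ha
      omega
  have e3 : Nat.mul (gs 4 S) kP = pk 4 3072 (cp S PR) := prod_eq hS1
  have e4 : Nat.mul (Nat.land (gs 4 S) (gs 4 Z)) kP = pk 4 3072 (cp (S ∩ Z) PR) := by
    rw [gs_land (by norm_num)]
    exact prod_eq hS2
  have e5 : c7T = pk 4 3072 (fun m => if m ∈ TR then 7 else 0) := by
    rw [c7T_eq]
    exact mul_gs_eq_pk fun a ha => by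
      have := lt_TR ha
      omega
  have e6 : Nat.add (pk 4 3072 (cp S PR)) (pk 4 3072 (fun m => if m ∈ TR then w 2048 else 0)) =
    pk 4 3072 (fun m => cp S PR m + if m ∈ TR then w 2048 else 0) := pk_add
  have e7 : Nat.add (pk 4 3072 (cp (S ∩ Z) PR)) (pk 4 3072 (fun m => if m ∈ TR then 7 else 0)) =
    pk 4 3072 (fun m => cp (S ∩ Z) PR m + if m ∈ TR then 7 else 0) := pk_add
  have hc : ∀ T ⊆ PT, ∀ m ∈ TR, cp T PR m ≤ 3 := by
    intro T hT m hm
    rw [cp_points hT hm]
    exact card_points_le (List.mem_toFinset.1 hm) _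
  have h1 : ∀ m, (cp S PR m + if m ∈ TR then w 2048 else 0) < 16 := by
    intro m
    by_cases h : m ∈ TR
    · rw [if_pos h]
      have := hc S hS1 m h
      omega
    · rw [if_neg h]
      have := le_of_cp hS1 m
      omega
  have h2 : ∀ m, (cp (S ∩ Z) PR m + if m ∈ TR then 7 else 0) < 16 := by
    intro m
    by_cases h : m ∈ TR
    · rw [if_pos h]
      have := hc (S ∩ Z) hS2 m h
      omega
    · rw [if_neg h]
      have := le_of_cp hS2 m
      omega
  have e8 : Nat.lor (pk 4 3072 (fun m => cp S PR m + if m ∈ TR then w 2048 else 0))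
      (pk 4 3072 (fun m => cp (S ∩ Z) PR m + if m ∈ TR then 7 else 0)) =
      pk 4 3072 (fun m => (cp S PR m + if m ∈ TR then w 2048 else 0) |||
        (cp (S ∩ Z) PR m + if m ∈ TR then 7 else 0)) :=
    pk_lor (W := 4) (fun i _ => h1 i) fun i _ => h2 i
  rw [e1, e2, e3, e4, e5, e6, e7, e8, cT_eq]
  refine (plane3 (fun i _ => ?_) TR).trans ?_
  · exact Nat.or_lt_two_pow (n := 4) (h1 i) (h2 i)
  · refine congrArg (gs 4) (filter_congr fun m hm => ?_)
    have hm2 := lt_TR hm
    rw [lor8 _ (h1 m) _ (h2 m), if_pos hm, if_pos hm, cp_points hS1 hm, cp_points hS2 hm]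
    have e9 : ((range 11).filter fun v => m.testBit v = true ∧ 2 ^ v ∈ S) = five w m := by
      unfold five
      refine filter_congr fun v hv => ?_
      rw [hS3 v (mem_range.1 hv)]
    rw [e9]
    unfold BadN
    have e10 : (8 ≤ ((range 11).filter fun v => m.testBit v = true ∧ 2 ^ v ∈ S ∩ Z).card + 7) ↔
        ∃ v ∈ five w m, 2 ^ v ∈ Z := by
      rw [← e9]
      constructor
      · intro h
        obtain ⟨v, hv⟩ := card_pos.1 (by omega :
          0 < ((range 11).filter fun v => m.testBit v = true ∧ 2 ^ v ∈ S ∩ Z).card)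
        rw [mem_filter, mem_inter] at hv
        exact ⟨v, by rw [mem_filter]; exact ⟨hv.1, hv.2.1, hv.2.2.1⟩, hv.2.2.2⟩
      · rintro ⟨v, hv, hvZ⟩
        rw [mem_filter] at hv
        have h3 : 0 < ((range 11).filter fun v => m.testBit v = true ∧ 2 ^ v ∈ S ∩ Z).card :=
          card_pos.2 ⟨v, by rw [mem_filter, mem_inter]; exact ⟨hv.1, hv.2.1, hv.2.2, hvZ⟩⟩
        omega
    rw [e10, Nat.add_comm (five w m).card]
    constructor
    · rintro ⟨-, h⟩
      exact h
    · intro h
      exact ⟨by omega, h⟩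

end

/-! ## the meaning of the bad triples -/

open Pool.Agent.Helper57.TZ (BadC dgt bgt)
open Pool.Agent.Helper58.TB (hv)

/-- **bad triples of the number are bad triples of the state** -/
theorem BadN.badC {T Zp F cap inc m : ℕ} {w : ℕ → ℕ} {Z : Finset ℕ}
    (hd : ∀ v < 11, w (2 ^ v) = dgt (F.testBit v) (hv T inc v))
    (hB : w 2048 + cap = 7 + ∑ v ∈ range 11, bgt (F.testBit v) (hv T inc v))
    (hZ : ∀ v < 11, 2 ^ v ∈ Z → Zp.testBit v = true) (h : BadN w Z m) :
    BadC T Zp F cap inc m := by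
  have h5 : ∀ v < 11, 5 ≤ w (2 ^ v) → dgt (F.testBit v) (hv T inc v) = 5 := by
    intro v hv11 h
    have h1 := Pool.Agent.Helper57.TZ.dgt_le (F.testBit v) (hv T inc v)
    rw [hd v hv11] at h
    omega
  rcases h with ⟨v, hv', h2⟩ | h2
  · unfold five at hv'
    rw [mem_filter, mem_range] at hv'
    obtain ⟨h3, h4, h6⟩ := hv'
    refine Or.inl ⟨v, h3, h4, hZ v h3 h2, ?_⟩
    have h7 := h5 v h3 h6
    by_contra h8
    have h9 : hv T inc v = 0 := by omega
    rw [h9] at h7
    revert h7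
    cases F.testBit v <;> decide
  · refine Or.inr ?_
    have h3 : (five w m).card ≤
        ((range 11).filter fun v => m.testBit v = true ∧ dgt (F.testBit v) (hv T inc v) = 5).card := by
      refine card_le_card fun v hv' => ?_
      unfold five at hv'
      rw [mem_filter] at hv' ⊢
      exact ⟨hv'.1, hv'.2.1, h5 v (mem_range.1 hv'.1) hv'.2.2⟩
    omega

/-- **all triples in `zt` are bad**, with the cells of a state -/
theorem zt_bad {T Zp F cap inc : ℕ} {w : ℕ → ℕ} {Z : Finset ℕ} (hw : ∀ m < 2049, w m < 16)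
    (hd : ∀ v < 11, w (2 ^ v) = dgt (F.testBit v) (hv T inc v))
    (hB : w 2048 + cap = 7 + ∑ v ∈ range 11, bgt (F.testBit v) (hv T inc v)) (hb : w 2048 ≤ 12)
    (hZ : ∀ v < 11, 2 ^ v ∈ Z → Zp.testBit v = true) :
    ∃ X ⊆ TR, zt (gs 4 Z) (pk 4 2049 w) = gs 4 X ∧ ∀ m ∈ X, BadC T Zp F cap inc m := by
  refine ⟨TR.filter (BadN w Z), filter_subset _ _, zt_eq hw (fun m hm => ?_) hb, fun m hm => ?_⟩
  · rw [PT_eq, mem_image] at hm
    obtain ⟨v, hv', rfl⟩ := hm
    rw [mem_range] at hv'
    rw [hd v hv']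
    have := Pool.Agent.Helper57.TZ.dgt_le (F.testBit v) (hv T inc v)
    omega
  · rw [mem_filter] at hm
    exact hm.2.badC hd hB hZ

end Pool.Agent.Helper54.TZ
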